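import Pool.Agent.H454R3.OFinal
import Pool.Agent.H454R3.LDefs
set_option autoImplicit false

namespace Pool.Agent.Results.MP_4d246d_lc.FacetRules

open Finset Pool.Agent.H454R3

/-- **Deterministic memoryless pivot rules that look at the set of facets (nonbasic variables)
which can be left improvingly are superpolynomial, even where Random-Edge is quadratic.** The
`n`-cube has the `2 n` facets `(i, b) = {y : y i = b}`. For `n ≥ 2 · 10⁶` and every map `r`
choosing an element of each nonempty set of facets there is an injective objective function `f`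
all of whose faces are combed (so that there is one local maximum on every face, an increasing
path of at most `n` steps from each vertex to the maximum, and Random-Edge takes at most
`n(n+1)/2` expected steps from every vertex), but a path of the rule `r` to the maximum with `L`
steps, `L + 1 ≥ 2 ^ (n^(1/4) / (250 log₂ n))`. -/
theorem result (n : ℕ) (hn : 2000000 ≤ n) (r : Finset (Fin n × Bool) → Fin n × Bool)
    (hr : ∀ E : Finset (Fin n × Bool), E.Nonempty → r E ∈ E) :
    ∃ f : (Fin n → Bool) → ℕ,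
      Function.Injective f ∧
      Combed f ∧
      (∀ (U : Finset (Fin n)) (x : Fin n → Bool), ∃! y : Fin n → Bool,
        (∀ i, i ∉ U → y i = x i) ∧ ∀ i ∈ U, f (flip y i) < f y) ∧
      (∀ x : Fin n → Bool, ∃ (m : ℕ) (w : ℕ → (Fin n → Bool)), m ≤ n ∧ w 0 = x ∧
        (∀ k < m, ∃ i ∈ improving f (w k), w (k + 1) = flip (w k) i) ∧
        improving f (w m) = ∅) ∧
      (∃ T : (Fin n → Bool) → ℝ, RandomEdge f T ∧ ∀ x, T x ≤ (n : ℝ) * (n + 1) / 2) ∧
      ∃ (L : ℕ) (v : ℕ → (Fin n → Bool)),
        (∀ k < L, (improving f (v k)).Nonempty ∧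
          v (k + 1) = flip (v k) (r (leaving f (v k))).1) ∧
        improving f (v L) = ∅ ∧
        (2 : ℝ) ^ ((n : ℝ) ^ (1 / 4 : ℝ) / (250 * Real.logb 2 n)) ≤ L + 1 := by
  have hnr : (2000000 : ℝ) ≤ n := by exact_mod_cast hn
  have hn0 : (0 : ℝ) ≤ n := by linarith
  set q : ℝ := (n : ℝ) ^ (1 / 4 : ℝ) with hq
  have hq4 : q ^ 4 = n := by
    rw [hq, ← Real.rpow_natCast, ← Real.rpow_mul hn0]
    norm_num
  have hqpos : 0 < q := by rw [hq]; apply Real.rpow_pos_of_pos; linarith
  have hq34 : 34 ≤ q := by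
    by_contra hcon
    push Not at hcon
    have : q ^ 4 < 34 ^ 4 := pow_lt_pow_left₀ hcon hqpos.le (by norm_num)
    rw [hq4] at this
    linarith
  set h : ℕ := ⌊q / (17 / 4)⌋₊ with hh
  have hle : (h : ℝ) ≤ q / (17 / 4) := Nat.floor_le (by positivity)
  have hge : q / (17 / 4) < h + 1 := Nat.lt_floor_add_one _
  have h8 : 8 ≤ h := by
    rw [hh]
    apply Nat.le_floor
    rw [le_div_iff₀ (by norm_num)]
    push_cast
    linarith
  have h8r : (8 : ℝ) ≤ h := by exact_mod_cast h8
  have h5 : q / 5 ≤ h := by linarith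
  have hh4 : 320 * h ^ 4 ≤ n := by
    have e1 : (h : ℝ) ^ 4 ≤ (q / (17 / 4)) ^ 4 := pow_le_pow_left₀ (by positivity) hle 4
    have e2 : (q / (17 / 4)) ^ 4 = n / (17 / 4) ^ 4 := by rw [div_pow, hq4]
    have e3 : 320 * (h : ℝ) ^ 4 ≤ n := by
      rw [e2] at e1
      have e4 : 320 * ((n : ℝ) / (17 / 4) ^ 4) ≤ n := by
        rw [mul_div_assoc', div_le_iff₀ (by norm_num)]
        norm_num
        linarith
      linarith
    exact_mod_cast e3
  set k : ℕ := Nat.clog 2 (8 * h) with hk
  have hk1 : 1 ≤ k := Nat.clog_pos (by norm_num) (by omega)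
  have hkle : 8 * h ≤ 2 ^ k := Nat.le_pow_clog (by norm_num) _
  have hklt : 2 ^ (k - 1) < 8 * h := Nat.pow_pred_clog_lt_self (by norm_num) (by omega)
  have hlog : (k : ℝ) ≤ Real.logb 2 n / 2 := by
    have e1 : (2 : ℝ) ^ k ≤ 4 * q := by
      have e2 : 2 ^ k ≤ 16 * h := by
        have : 2 ^ k = 2 * 2 ^ (k - 1) := by
          rw [← pow_succ']; congr 1; omega
        omega
      have e3 : (2 : ℝ) ^ k ≤ 16 * h := by exact_mod_cast e2
      have e4 : 16 * (h : ℝ) ≤ 16 * (q / (17 / 4)) := by linarith
      linarith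
    have e5 : (k : ℝ) ≤ Real.logb 2 (4 * q) := by
      rw [← Real.rpow_natCast] at e1
      exact (Real.le_logb_iff_rpow_le (by norm_num) (by positivity)).2 e1
    have e6 : Real.logb 2 (4 * q) = 2 + Real.logb 2 n / 4 := by
      rw [Real.logb_mul (by norm_num) hqpos.ne', hq, Real.logb_rpow_eq_mul_logb_of_pos (by linarith)]
      have : Real.logb 2 4 = 2 := by
        rw [show (4 : ℝ) = 2 ^ (2 : ℝ) by norm_num, Real.logb_rpow (by norm_num) (by norm_num)]
      rw [this]
      ring
    have e7 : 8 ≤ Real.logb 2 n := by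
      rw [Real.le_logb_iff_rpow_le (by norm_num) (by linarith)]
      norm_num
      linarith
    linarith
  set R : Finset (Fin n) → (Fin n → Bool) → Fin n := fun S x =>
    (r (S.image fun i => (i, x i))).1 with hRdef
  obtain ⟨f, hinj, hcomb, L, v, h1, h2, h3⟩ := exists_long R
    (by
      intro S x hS
      rw [hRdef]
      simp only
      have := hr (S.image fun i => (i, x i)) (hS.image _)
      obtain ⟨i, hi, he⟩ := mem_image.1 this
      rw [← he]
      exact hi)
    (by
      intro S x x' hx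
      rw [hRdef]
      simp only
      congr 2
      apply image_congr
      intro i hi
      simp only
      rw [hx i hi])
    h k h8 hh4 hk1 hkle
  obtain ⟨g1, g2, g3⟩ := hcomb.all hinj
  refine ⟨f, hinj, hcomb, g1, g2, g3, L, v, h1, h2, ?_⟩
  refine le_trans ?_ h3
  apply Real.rpow_le_rpow_of_exponent_le (by norm_num)
  have hkr : (1 : ℝ) ≤ k := by exact_mod_cast hk1
  have hlogpos : 0 < Real.logb 2 n := by linarith
  rw [div_le_div_iff₀ (by positivity) (by positivity)]
  calc q * (100 * k) ≤ q * (100 * (Real.logb 2 n / 2)) := by gcongr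
    _ = q / 5 * (250 * Real.logb 2 n) := by ring
    _ ≤ h * (250 * Real.logb 2 n) := by gcongr

end Pool.Agent.Results.MP_4d246d_lc.FacetRules
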