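import Pool.Agent.H454R3.KM
set_option autoImplicit false

namespace Pool.Agent.Results.MP_4d246d_lc.OutmapExp

open Finset Pool.Agent.H454R3

/-- **Deterministic memoryless pivot rules that look at the set of improving directions are
exponential, even where Random-Edge is quadratic.** For every map `r` choosing an element of each
nonempty set of directions and every vertex `x₀` of the `n`-cube there is an injective objective
function `f` such that every face has a direction all of whose edges are oriented in the same way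
(in particular there is one local maximum on every face, an increasing path of at most `n` steps
from each vertex to the maximum, and the expected number of steps of the rule that chooses a
random improving direction is at most `n(n+1)/2` from every vertex), while the path of the
deterministic rule `r` from `x₀` to the maximum has `L` steps with
`L + 1 ≥ 2 ^ (n / (4 ⌈log₂ n⌉))`. -/
theorem result (n : ℕ) (hn : 2 ≤ n) (r : Finset (Fin n) → Fin n)
    (hr : ∀ S : Finset (Fin n), S.Nonempty → r S ∈ S) (x₀ : Fin n → Bool) :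
    ∃ f : (Fin n → Bool) → ℕ,
      Function.Injective f ∧
      Combed f ∧
      (∀ (U : Finset (Fin n)) (x : Fin n → Bool), ∃! y : Fin n → Bool,
        (∀ i, i ∉ U → y i = x i) ∧ ∀ i ∈ U, f (flip y i) < f y) ∧
      (∀ x : Fin n → Bool, ∃ (m : ℕ) (w : ℕ → (Fin n → Bool)), m ≤ n ∧ w 0 = x ∧
        (∀ k < m, ∃ i ∈ improving f (w k), w (k + 1) = flip (w k) i) ∧
        improving f (w m) = ∅) ∧
      (∃ T : (Fin n → Bool) → ℝ, RandomEdge f T ∧ ∀ x, T x ≤ (n : ℝ) * (n + 1) / 2) ∧
      ∃ (L : ℕ) (v : ℕ → (Fin n → Bool)), v 0 = x₀ ∧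
        (∀ k < L, (improving f (v k)).Nonempty ∧
          v (k + 1) = flip (v k) (r (improving f (v k)))) ∧
        improving f (v L) = ∅ ∧
        (2 : ℝ) ^ ((n : ℝ) / (4 * Nat.clog 2 n)) ≤ L + 1 := by
  have hk : 1 ≤ Nat.clog 2 n := Nat.clog_pos (by norm_num) hn
  obtain ⟨t, ht, hlen, hst⟩ := exists_steering r hr hk
    (by rw [Fintype.card_fin]; exact Nat.le_pow_clog (by norm_num) n)
  obtain ⟨f, hinj, hcomb, L, v, hL, h0, h1, h2⟩ := exists_cube r x₀ t ht hst
  obtain ⟨g1, g2, g3⟩ := hcomb.all hinj
  refine ⟨f, hinj, hcomb, g1, g2, g3, L, v, h0, h1, h2, ?_⟩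
  rw [Fintype.card_fin] at hlen
  have h3 : ((L : ℝ) + 1) = (2 : ℝ) ^ (t.length : ℝ) := by
    rw [Real.rpow_natCast]
    exact_mod_cast hL
  rw [h3]
  exact Real.rpow_le_rpow_of_exponent_le (by norm_num) hlen

end Pool.Agent.Results.MP_4d246d_lc.OutmapExp
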