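import Pool.Agent.H24R2.U.Main

set_option autoImplicit false

namespace Pool.Agent.Results.MP_4d246d_lc.QuasiPolynomialTime

open Pool.Agent.H24R2
open Pool.Agent.NPC hiding Poly

/-- **A deterministic version of the simplex method with quasi-polynomial running time.**
There are a function `F` on bit strings and a Turing machine `M` computing it (Mathlib's `TM2`
model) whose running time on inputs of length `N` is at most `2 ^ (C (size N + 1) ^ 2)`, where
`size N` is the number of binary digits of `N`, such that for every rational linear program
`max c · x`, `A x ≤ b`, `x ≥ 0` (with `m` rows and `n` columns) and every vertex `v` of its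
polyhedron, `F` maps the code of `(A, b, c, v)` to the code of a complete run of the simplex method
starting at `v`: a sequence of vertices, each one joined to the preceding one by an edge along which
the objective function increases, the last one optimal or with an unbounded edge along which the
objective function increases.  The number of pivots is at most
`6 (2 n + 1) ^ (⌊log₂ (m + n)⌋ + 1)`. -/
theorem result : ∃ (F : List Bool → List Bool) (C : ℕ)
    (M : Turing.TM2ComputableInTime (id : List Bool → List Bool) (id : List Bool → List Bool) F),
    (∀ N, M.time N ≤ 2 ^ (C * (Nat.size N + 1) ^ 2)) ∧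
    ∀ (m n : ℕ) (A : Fin m → Fin n → ℚ) (b : Fin m → ℚ) (c v : Fin n → ℚ),
      (fun j => (v j : ℝ)) ∈
        (Poly (fun i j => (A i j : ℝ)) (fun i => (b i : ℝ))).extremePoints ℝ →
      ∃ run : List (Fin n → ℚ),
        F (bits (List.ofFn fun i => List.ofFn (A i), List.ofFn b, List.ofFn c, List.ofFn v)) =
          bits (run.map List.ofFn) ∧
        run.length ≤ 6 * (2 * n + 1) ^ (Nat.log 2 (m + n) + 1) ∧
        SimplexRun (Poly (fun i j => (A i j : ℝ)) (fun i => (b i : ℝ))) (fun j => (c j : ℝ))
          (fun j => (v j : ℝ)) (run.map fun w j => (w j : ℝ)) :=
  Pool.Agent.H24U.main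

end Pool.Agent.Results.MP_4d246d_lc.QuasiPolynomialTime
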