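import Pool.Agent.H695R2.Simp.Fin

/-!
# A random shadow vertex rule is polynomial on matrices with bounded subdeterminants

Let `A` be an integral `m × d` matrix all of whose `d × d` subdeterminants are at most `Δ` in
absolute value (for instance a totally unimodular matrix), let `b` and `c` be arbitrary real
vectors, and let `v` be a vertex of the (possibly unbounded) polyhedron `P = {x | A x ≤ b}`, with
`d` linearly independent tight rows `u₁, …, u_d`.  For at least half of the coefficient vectors
`lam` of the cube `[0,1]^d`, the shadow vertex path from `v` with the auxiliary objective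
`w = ∑ lam j u_j` (the path of the maximisers of `w + t c'` as `t` increases from `0`) strictly
increases `c` at every pivot, has at most `24 m d³ Δ² (1 + log (d Δ))` pivots, whatever `b` and `c`
are, and ends at a maximiser of `c` or at a vertex with an unbounded edge along which `c`
increases.  Here `c'` is a rounded version of `c`, which depends only on `A`, the rows `u` and `c`.

The definitions are in `Pool.Agent.H695R2.Simp.Defs`.
-/

set_option autoImplicit false

namespace Pool.Agent.Results.MP_4d246d_lc.RandomShadowRule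

open Matrix MeasureTheory Pool.Agent.H695R2.Simp

theorem result {m d : ℕ} (hd : 0 < d) (A : Fin m → Fin d → ℤ) (Δ : ℕ)
    (hΔ : ∀ f : Fin d → Fin m, |(Matrix.of fun j => A (f j)).det| ≤ Δ)
    (u : Fin d → Fin m) (hu : LinearIndependent ℝ (fun j => re A (u j))) (c : Fin d → ℝ) :
    ∃ c' : Fin d → ℝ, ∀ (b : Fin m → ℝ) (v : Fin d → ℝ), v ∈ Pol (re A) b →
      (∀ j, re A (u j) ⬝ᵥ v = b (u j)) →
      1 / 2 ≤ volume {lam : Fin d → ℝ | lam ∈ Set.Icc 0 1 ∧ ∃ k x t,
        Shadow (Pol (re A) b) (wt (re A) u lam) c' v k x t ∧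
        (∀ j < k, c ⬝ᵥ x j < c ⬝ᵥ x (j + 1)) ∧
        ((∀ p ∈ Pol (re A) b, c ⬝ᵥ p ≤ c ⬝ᵥ x k) ∨ ∃ z : Fin d → ℝ, 0 < c ⬝ᵥ z ∧
          IsExposed ℝ (Pol (re A) b) {p | ∃ r : ℝ, 0 ≤ r ∧ p = x k + r • z}) ∧
        (k : ℝ) ≤ 24 * m * d ^ 3 * Δ ^ 2 * (1 + Real.log (d * Δ))} :=
  final hd A Δ hΔ u hu c

end Pool.Agent.Results.MP_4d246d_lc.RandomShadowRule
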